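import Pool.Agent.X264.KF.Basic

/-!
# Kimura-finiteness descends along tensor products
-/

set_option autoImplicit false
set_option linter.unusedSectionVars false
set_option linter.unusedSimpArgs false
set_option backward.isDefEq.respectTransparency false
set_option backward.defeqAttrib.useBackward true

open CategoryTheory Limits MonoidalCategory
open Pool.Agent.Y112.SR Pool.Agent.Y112.KD
open Pool.Agent.Y116.MT (tr)
open Pool.Agent.TH829.Kim (K F F_succ InRad Killed isNilpotent_of_inRad exists_lift)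

namespace Pool.Agent.X264.KF

universe v u w

open Functor.LaxMonoidal Functor.OplaxMonoidal

section

variable {C : Type u} [Category.{v} C] [Preadditive C] [Linear ℚ C] [MonoidalCategory C]
  [MonoidalPreadditive C] [MonoidalLinear ℚ C] [SymmetricCategory C] [RightRigidCategory C]
  {K : Type w} [Field K] (R : SuperRealisation C K)

/-- An endomorphism with vanishing realisation lies in the radical of the trace form. -/
lemma inRad_of_real (hU : UnitQ C) {X : C} (x : End X) (hx : R.H.map (x : X ⟶ X) = 0) :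
    InRad (trq hU X) x := by
  intro γ
  have hK := R_charZero R
  have h1 := real_tr R hU (X := X) (x * γ : End X)
  rw [End.mul_def, Functor.map_comp, hx, comp_zero, zero_comp, ModuleCat.hom_zero, map_zero] at h1
  exact_mod_cast h1

/-- The endomorphisms of a Kimura-finite object with vanishing realisation are nilpotent. -/
lemma nil_of_kf (hU : UnitQ C) {M : C} (hM : IsKimuraFinite M) (x : End M)
    (hx : R.H.map (x : M ⟶ M) = 0) : IsNilpotent x := by
  obtain ⟨A, B, i, r, j, s, h1, h2, h3, ⟨n, h4⟩, ⟨m, h5⟩⟩ := hM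
  have e1 : ((-1 : ℚ) * (-1)) = 1 := by norm_num
  have e2 : ((1 : ℚ) * 1) = 1 := by norm_num
  have h6 := asym_succ_zero e1 ((kills_iff e1 A n).mp h4)
  have h7 := asym_succ_zero e2 ((kills_iff e2 B m).mp h5)
  let e : End M := (r ≫ i : M ⟶ M)
  have he : e * e = e := by
    rw [End.mul_def]
    change (r ≫ i) ≫ (r ≫ i) = r ≫ i
    rw [Category.assoc, reassoc_of% h1]
  have he' : (1 - e : End M) = (show End M from s ≫ j) := by
    change 𝟙 M - r ≫ i = s ≫ j
    rw [← h3, add_sub_cancel_left]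
  have hE : Killed (trq hU M) (-1) e n := killed hU e1 i r n h6 e rfl
  have hO : Killed (trq hU M) 1 (1 - e) m := killed hU e2 j s m h7 (1 - e) he'
  exact isNilpotent_of_inRad (R := End M) (tr := trq hU M) (fun a b => trq_comm' R hU b a)
    (f := e) he hE hO (inRad_of_real R hU x hx)

/-- A retract, with purely even or odd realisation, of a Kimura-finite object is killed by an
exterior or symmetric power. -/
lemma kill_retract_aux (hU : UnitQ C) {M : C} (hM : IsKimuraFinite M) {A B : C} (i : A ⟶ M)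
    (r : M ⟶ A) (j : B ⟶ M) (s : M ⟶ B) (h3 : r ≫ i + s ≫ j = 𝟙 M) {η : ℚ} (hη : η * η = 1)
    {n m : ℕ} (hA : asym η A n = 0) (hB : asym (-η) B m = 0) {X : C} (a : X ⟶ M) (b : M ⟶ X)
    (hab : a ≫ b = 𝟙 X) (hX : R.par X = ((-η : ℚ) : K) • 𝟙 _) : asym η X n = 0 := by
  have hK := R_charZero R
  have hη' : (-η) * (-η) = 1 := by rw [neg_mul_neg, hη]
  have hB' := par_of_asym R hη' hB
  have hηK : ((η : ℚ) : K) * ((η : ℚ) : K) = 1 := by exact_mod_cast hη
  have hη0 : ((η : ℚ) : K) ≠ 0 := fun h => by simp [h] at hηK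
  -- the realisation of the map to the wrong part vanishes
  have h1 : R.H.map (a ≫ s) = 0 := by
    have h2 := R.par_natural (a ≫ s)
    rw [hX, hB', Linear.comp_smul, Linear.smul_comp, Category.comp_id, Category.id_comp] at h2
    push_cast at h2
    rw [neg_neg] at h2
    have h4 : ((2 : K) * ((η : ℚ) : K)) • R.H.map (a ≫ s) = 0 := by
      have h5 : ((2 : K) * ((η : ℚ) : K)) • R.H.map (a ≫ s) =
          ((η : ℚ) : K) • R.H.map (a ≫ s) - (-((η : ℚ) : K)) • R.H.map (a ≫ s) := by module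
      rw [h5, h2, sub_self]
    exact (smul_eq_zero.mp h4).resolve_left (mul_ne_zero two_ne_zero hη0)
  let x : End X := (a ≫ s ≫ j ≫ b : X ⟶ X)
  let y : End M := (b ≫ a ≫ s ≫ j ≫ b ≫ a : M ⟶ M)
  have hy : R.H.map (y : M ⟶ M) = 0 := by
    change R.H.map (b ≫ a ≫ s ≫ j ≫ b ≫ a) = 0
    have h6 : b ≫ a ≫ s ≫ j ≫ b ≫ a = b ≫ (a ≫ s) ≫ j ≫ b ≫ a := by simp
    rw [h6, Functor.map_comp, Functor.map_comp, h1, zero_comp, comp_zero]
  obtain ⟨k, hk⟩ := nil_of_kf R hU hM y hy
  have hpow : ∀ l : ℕ, (a ≫ (y ^ l : End M) ≫ b : X ⟶ X) = (x ^ l : End X) := by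
    intro l
    induction l with
    | zero =>
      rw [pow_zero, pow_zero]
      change a ≫ 𝟙 M ≫ b = 𝟙 X
      rw [Category.id_comp, hab]
    | succ l ih =>
      rw [pow_succ, pow_succ, End.mul_def, End.mul_def, ← ih]
      change a ≫ ((b ≫ a ≫ s ≫ j ≫ b ≫ a) ≫ (y ^ l : End M)) ≫ b =
        (a ≫ s ≫ j ≫ b) ≫ a ≫ (y ^ l : End M) ≫ b
      simp only [Category.assoc]
      rw [reassoc_of% hab]
  have hx : IsNilpotent x := ⟨k, by
    rw [← hpow k, hk]
    change a ≫ (0 : M ⟶ M) ≫ b = 0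
    rw [zero_comp, comp_zero]⟩
  obtain ⟨u, hu⟩ := hx.isUnit_one_sub
  have h7 : (a ≫ r) ≫ (i ≫ b) = (1 - x : End X) := by
    change (a ≫ r) ≫ (i ≫ b) = 𝟙 X - a ≫ s ≫ j ≫ b
    have h8 : (a ≫ r) ≫ (i ≫ b) = a ≫ (r ≫ i) ≫ b := by simp
    have h9 : r ≫ i = 𝟙 M - s ≫ j := by rw [← h3, add_sub_cancel_right]
    rw [h8, h9, Preadditive.sub_comp, Preadditive.comp_sub, Category.id_comp, hab]
    simp
  have h10 : (a ≫ r) ≫ ((i ≫ b) ≫ ((↑u⁻¹ : End X) : X ⟶ X)) = 𝟙 X := by
    rw [← Category.assoc, h7, ← hu, ← End.mul_def, Units.inv_mul]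
    rfl
  exact kills_retract (a ≫ r) ((i ≫ b) ≫ ((↑u⁻¹ : End X) : X ⟶ X)) h10 hA

lemma kill_retract (hU : UnitQ C) {M : C} (hM : IsKimuraFinite M) {η : ℚ} (hη : η = 1 ∨ η = -1)
    {X : C} (a : X ⟶ M) (b : M ⟶ X) (hab : a ≫ b = 𝟙 X)
    (hX : R.par X = ((-η : ℚ) : K) • 𝟙 _) : ∃ n, asym η X n = 0 := by
  obtain ⟨A, B, i, r, j, s, h1, h2, h3, ⟨n, h4⟩, ⟨m, h5⟩⟩ := id hM
  have e1 : ((-1 : ℚ) * (-1)) = 1 := by norm_num
  have e2 : ((1 : ℚ) * 1) = 1 := by norm_num
  have h6 := (kills_iff e1 A n).mp h4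
  have h7 := (kills_iff e2 B m).mp h5
  rcases hη with rfl | rfl
  · exact ⟨m, kill_retract_aux R hU hM j s i r (by rw [add_comm, h3]) e2 h7 h6 a b hab hX⟩
  · exact ⟨n, kill_retract_aux R hU hM i r j s h3 e1 h6 (by rwa [neg_neg]) a b hab hX⟩

/-- The parity of a tensor product of pure objects. -/
lemma par_tensor_pure {X Y : C} {d d' : K} (hX : R.par X = d • 𝟙 _) (hY : R.par Y = d' • 𝟙 _) :
    R.par (X ⊗ Y) = (d * d') • 𝟙 _ := by
  have h1 : μ R.H X Y ≫ R.par (X ⊗ Y) = μ R.H X Y ≫ ((d * d') • 𝟙 _) := by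
    rw [R.par_tensor, hX, hY, MonoidalCategory.tensorHom_def, MonoidalLinear.smul_whiskerRight,
      MonoidalLinear.whiskerLeft_smul, id_whiskerRight, MonoidalCategory.whiskerLeft_id]
    simp only [Linear.smul_comp, Linear.comp_smul, Category.comp_id, Category.id_comp, smul_smul]
    rw [mul_comm]
  have h2 := congrArg (fun z => δ R.H X Y ≫ z) h1
  simpa using h2

variable [IsIdempotentComplete C]

/-- If the sign conjecture holds for `M` and the endomorphisms of `M` with vanishing realisation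
are nilpotent then `M` is the direct sum of objects with even and odd realisations. -/
lemma exists_split {M : C} (hC : R.CPlus M)
    (hnil : ∀ x : End M, R.H.map (x : M ⟶ M) = 0 → IsNilpotent x) :
    ∃ (A B : C) (i : A ⟶ M) (r : M ⟶ A) (j : B ⟶ M) (s : M ⟶ B),
      i ≫ r = 𝟙 A ∧ j ≫ s = 𝟙 B ∧ r ≫ i + s ≫ j = 𝟙 M ∧ R.par A = (1 : K) • 𝟙 _ ∧
      R.par B = (-1 : K) • 𝟙 _ := by
  have hK := R_charZero R
  have h2 : (2 : K) ≠ 0 := two_ne_zero
  obtain ⟨f, hf⟩ := hC
  have hf1 : R.H.map f = (2 : K)⁻¹ • (𝟙 _ + R.par M) := by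
    rw [← hf, smul_smul, inv_mul_cancel₀ h2, one_smul]
  have hff : R.H.map f ≫ R.H.map f = R.H.map f := by
    rw [hf1, Linear.smul_comp, Linear.comp_smul, Preadditive.add_comp, Preadditive.comp_add,
      Preadditive.comp_add, R.par_sq, Category.id_comp, Category.id_comp, Category.comp_id,
      smul_smul]
    have h3 : (𝟙 _ + R.par M + (R.par M + 𝟙 (R.H.obj M))) = (2 : K) • (𝟙 _ + R.par M) := by
      rw [two_smul]
      abel
    rw [h3, smul_smul, mul_assoc, inv_mul_cancel₀ h2, mul_one]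
  let e : End M := f
  obtain ⟨p, c, hp, hpc⟩ := exists_lift (e := e) (hnil _ (by
    have h3 : ((e * e - e : End M) : M ⟶ M) = f ≫ f - f := rfl
    rw [h3, Functor.map_sub, Functor.map_comp, hff, sub_self]))
  have hpr : R.H.map (p : M ⟶ M) = (2 : K)⁻¹ • (𝟙 _ + R.par M) := by
    have h3 : (p : M ⟶ M) = f + (c : M ⟶ M) ≫ (f ≫ f - f) := by
      have h4 : p = e + (e * e - e) * c := by rw [← hpc]; abel
      exact h4
    rw [h3, Functor.map_add, Functor.map_comp, Functor.map_sub, Functor.map_comp, hff, sub_self,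
      comp_zero, add_zero, hf1]
  obtain ⟨A, i, r, hir, hri⟩ := IsIdempotentComplete.idempotents_split M (p : M ⟶ M) hp
  have hq : ((1 - p : End M) : M ⟶ M) ≫ ((1 - p : End M) : M ⟶ M) = (1 - p : End M) := by
    have h3 : (1 - p) * (1 - p) = 1 - p := by
      rw [mul_sub, sub_mul, sub_mul, one_mul, one_mul, mul_one, hp, sub_self, sub_zero]
    exact h3
  obtain ⟨B, j, s, hjs, hsj⟩ := IsIdempotentComplete.idempotents_split M _ hq
  refine ⟨A, B, i, r, j, s, hir, hjs, ?_, ?_, ?_⟩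
  · rw [hri, hsj]
    change p + (1 - p) = 1
    abel
  · -- the even part
    have h3 : R.H.map i ≫ R.H.map (p : M ⟶ M) = R.H.map i := by
      rw [← hri, ← Functor.map_comp, ← Category.assoc, hir, Category.id_comp]
    have h4 : R.H.map i ≫ R.par M = R.H.map i := by
      rw [hpr, Linear.comp_smul, Preadditive.comp_add, Category.comp_id] at h3
      have h5 := congrArg (fun z => (2 : K) • z) h3
      simp only [smul_smul, mul_inv_cancel₀ h2, one_smul] at h5
      rw [two_smul] at h5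
      exact add_left_cancel h5
    rw [one_smul]
    have h5 := R.par_natural i
    rw [h4] at h5
    have h6 : R.H.map i ≫ R.H.map r = 𝟙 _ := by
      rw [← Functor.map_comp, hir, CategoryTheory.Functor.map_id]
    have h7 := congrArg (fun z => z ≫ R.H.map r) h5
    simp only [Category.assoc, h6, Category.comp_id] at h7
    exact h7.symm
  · let q' : M ⟶ M := (1 - p : End M)
    have hq' : s ≫ j = q' := hsj
    have h3 : R.H.map j ≫ R.H.map q' = R.H.map j := by
      rw [← hq', ← Functor.map_comp, ← Category.assoc, hjs, Category.id_comp]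
    have h3' : R.H.map q' = 𝟙 _ - (2 : K)⁻¹ • (𝟙 _ + R.par M) := by
      let p' : M ⟶ M := p
      have hpr' : R.H.map p' = (2 : K)⁻¹ • (𝟙 _ + R.par M) := hpr
      change R.H.map (𝟙 M - p') = _
      rw [Functor.map_sub, CategoryTheory.Functor.map_id, hpr']
    have h4 : R.H.map j ≫ R.par M = -R.H.map j := by
      rw [h3', Preadditive.comp_sub, Category.comp_id, Linear.comp_smul, Preadditive.comp_add,
        Category.comp_id, sub_eq_self, smul_eq_zero] at h3
      have h5 := h3.resolve_left (inv_ne_zero h2)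
      exact (neg_eq_of_add_eq_zero_right h5).symm
    rw [neg_smul, one_smul]
    have h5 := R.par_natural j
    rw [h4] at h5
    have h6 : R.H.map j ≫ R.H.map s = 𝟙 _ := by
      rw [← Functor.map_comp, hjs, CategoryTheory.Functor.map_id]
    have h7 := congrArg (fun z => z ≫ R.H.map s) h5
    simp only [Category.assoc, h6, Category.comp_id, Preadditive.neg_comp] at h7
    exact h7.symm

/-- If `M ⊗ N` is Kimura-finite then the endomorphisms of `M` with vanishing realisation are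
nilpotent. -/
lemma nil_left (hU : UnitQ C) {M N : C} (h : IsKimuraFinite (M ⊗ N)) (hN : ¬ IsZero (R.H.obj N))
    (hCN : R.CPlus N) (x : End M) (hx : R.H.map (x : M ⟶ M) = 0) : IsNilpotent x := by
  have hK := R_charZero R
  let y : End (M ⊗ N) := ((x : M ⟶ M) ▷ N : M ⊗ N ⟶ M ⊗ N)
  have hy : R.H.map (y : M ⊗ N ⟶ M ⊗ N) = 0 := by
    change R.H.map ((x : M ⟶ M) ▷ N) = 0
    rw [Functor.Monoidal.map_whiskerRight, hx, MonoidalPreadditive.zero_whiskerRight, zero_comp,
      comp_zero]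
  obtain ⟨k, hk⟩ := nil_of_kf R hU h y hy
  have hpow : ∀ l : ℕ, (y ^ l : End (M ⊗ N)) = ((x ^ l : End M) : M ⟶ M) ▷ N := by
    intro l
    induction l with
    | zero =>
      rw [pow_zero, pow_zero]
      exact (id_whiskerRight M N).symm
    | succ l ih =>
      rw [pow_succ, pow_succ, End.mul_def, End.mul_def, ih, comp_whiskerRight]
  rw [hpow k] at hk
  obtain ⟨q, hq⟩ := (cplus_iff R N).mp hCN
  have h1 : ((x ^ k : End M) : M ⟶ M) ⊗ₘ q = 0 := by
    rw [MonoidalCategory.tensorHom_def]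
    have h2 : ((x ^ k : End M) : M ⟶ M) ▷ N = 0 := hk
    rw [h2, zero_comp]
  have h3 := ptr_tensor ((x ^ k : End M) : M ⟶ M) q (trq hU N q) (trq_spec hU q)
  rw [h1] at h3
  have h4 : ptr (0 : M ⊗ N ⟶ M ⊗ N) = 0 := (ptrL M N).map_zero
  rw [h4] at h3
  have h5 : trq hU N q ≠ 0 := by
    intro h6
    have h7 := real_tr R hU q
    rw [h6, hq, R.par_sq, ModuleCat.hom_id, LinearMap.trace_id] at h7
    have h8 := finrank_ne_zero R hN
    apply h8
    have h0 := R.finite N
    exact_mod_cast h7.symm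
  exact ⟨k, (smul_eq_zero.mp h3.symm).resolve_left h5⟩

/-- Descent of Kimura-finiteness to the first factor. -/
theorem kf_left (hU : UnitQ C) {M N : C} (h : IsKimuraFinite (M ⊗ N))
    (hM : ¬ IsZero (R.H.obj M)) (hN : ¬ IsZero (R.H.obj N)) : IsKimuraFinite M := by
  have hK := R_charZero R
  have e1 : ((-1 : ℚ) * (-1)) = 1 := by norm_num
  have e2 : ((1 : ℚ) * 1) = 1 := by norm_num
  -- the sign conjecture
  have hMN : R.CPlus (M ⊗ N) := by
    obtain ⟨A, B, i, r, j, s, h1, h2, h3, ⟨n, h4⟩, ⟨m, h5⟩⟩ := id h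
    have h6 := par_of_asym R e1 ((kills_iff e1 A n).mp h4)
    have h7 := par_of_asym R e2 ((kills_iff e2 B m).mp h5)
    rw [cplus_iff]
    refine ⟨r ≫ i - s ≫ j, ?_⟩
    have h8 : R.H.map (r ≫ i) ≫ R.par (M ⊗ N) = R.H.map (r ≫ i) := by
      rw [Functor.map_comp, Category.assoc, R.par_natural, h6]
      simp
    have h9 : R.H.map (s ≫ j) ≫ R.par (M ⊗ N) = -R.H.map (s ≫ j) := by
      rw [Functor.map_comp, Category.assoc, R.par_natural, h7]
      simp
    have h10 : R.par (M ⊗ N) = R.H.map (r ≫ i + s ≫ j) ≫ R.par (M ⊗ N) := by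
      rw [h3, CategoryTheory.Functor.map_id, Category.id_comp]
    rw [h10, Functor.map_add, Preadditive.add_comp, h8, h9, Functor.map_sub, sub_eq_add_neg]
  have hCM : R.CPlus M := cplus_of_tensor R hN hMN
  have hCN : R.CPlus N := cplus_of_tensor R hM (cplus_braid R hMN)
  -- the decompositions
  have hM' := exists_split R hCM (fun x hx => nil_left R hU h hN hCN x hx)
  have hN' := exists_split R hCN (fun x hx => nil_left R hU (h.of_iso (β_ M N)) hM hCM x hx)
  obtain ⟨M1, M2, i, r, j, s, h1, h2, h3, h4, h5⟩ := hM'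
  obtain ⟨N1, N2, i', r', j', s', h1', h2', h3', h4', h5'⟩ := hN'
  -- a nonzero part of `N`
  obtain ⟨P, d', hd', a', b', hab', hP, hP0⟩ : ∃ (P : C) (d' : ℚ) (_ : d' = 1 ∨ d' = -1)
      (a' : P ⟶ N) (b' : N ⟶ P), a' ≫ b' = 𝟙 P ∧ R.par P = ((d' : ℚ) : K) • 𝟙 _ ∧
      ¬ IsZero (R.H.obj P) := by
    by_cases h6 : IsZero (R.H.obj N1)
    · refine ⟨N2, -1, Or.inr rfl, j', s', h2', by rw [h5']; push_cast; rfl, fun h7 => hN ?_⟩
      rw [IsZero.iff_id_eq_zero, ← CategoryTheory.Functor.map_id, ← h3', Functor.map_add,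
        Functor.map_comp, Functor.map_comp, h6.eq_of_src (R.H.map i') 0,
        h7.eq_of_src (R.H.map j') 0, comp_zero, comp_zero, add_zero]
    · exact ⟨N1, 1, Or.inl rfl, i', r', h1', by rw [h4']; push_cast; rfl, h6⟩
  have key : ∀ (X : C) (d : ℚ) (_ : d = 1 ∨ d = -1) (a : X ⟶ M) (b : M ⟶ X), a ≫ b = 𝟙 X →
      R.par X = ((d : ℚ) : K) • 𝟙 _ → ∃ n, asym (-d) X n = 0 := by
    intro X d hd a b hab hX
    have hdd : d * d = 1 := by rcases hd with rfl | rfl <;> norm_num
    have hdd' : d' * d' = 1 := by rcases hd' with rfl | rfl <;> norm_num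
    have h6 : R.par (X ⊗ P) = ((-(-d * d') : ℚ) : K) • 𝟙 _ := by
      rw [par_tensor_pure R hX hP]
      congr 1
      push_cast
      ring
    have h7 : (a ⊗ₘ a') ≫ (b ⊗ₘ b') = 𝟙 (X ⊗ P) := by
      rw [tensorHom_comp_tensorHom, hab, hab', id_tensorHom_id]
    have h8 : (-d * d') = 1 ∨ (-d * d') = -1 := by
      rcases hd with rfl | rfl <;> rcases hd' with rfl | rfl <;> norm_num
    obtain ⟨n, hn⟩ := kill_retract R hU h h8 (a ⊗ₘ a') (b ⊗ₘ b') h7 h6
    exact ⟨n, kill_descent hU (by rw [neg_mul_neg, hdd]) hdd' X P n hn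
      (F_one_ne R hU d' hdd' hP hP0 n)⟩
  refine ⟨M1, M2, i, r, j, s, h1, h2, h3, ?_, ?_⟩
  · obtain ⟨n, hn⟩ := key M1 1 (Or.inl rfl) i r h1 (by rw [h4]; push_cast; rfl)
    exact ⟨n, (kills_iff e1 M1 n).mpr hn⟩
  · obtain ⟨n, hn⟩ := key M2 (-1) (Or.inr rfl) j s h2 (by rw [h5]; push_cast; rfl)
    rw [neg_neg] at hn
    exact ⟨n, (kills_iff e2 M2 n).mpr hn⟩

end

end Pool.Agent.X264.KF
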