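import Pool.Agent.Y112.KD.Real
import Pool.Agent.TH829.Kim.Alg2

/-!
# Kimura-finite objects and their realisations
-/

set_option autoImplicit false
set_option linter.unusedSectionVars false
set_option linter.unusedSimpArgs false
set_option backward.isDefEq.respectTransparency false
set_option backward.defeqAttrib.useBackward true

open CategoryTheory Limits MonoidalCategory
open Pool.Agent.Y112.SR Pool.Agent.Y112.KD
open Pool.Agent.Y116.MT (tr)
open Pool.Agent.TH829.Kim (K F F_succ InRad Killed isNilpotent_of_inRad exists_lift)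

namespace Pool.Agent.X264.KF

universe v u w

open Functor.LaxMonoidal Functor.OplaxMonoidal

section

variable {C : Type u} [Category.{v} C] [MonoidalCategory C] [SymmetricCategory C]
  [Preadditive C] [Linear ℚ C]

/-- `M` is finite-dimensional in the sense of Kimura and O'Sullivan: it is the direct sum of an
object `A` with `Λ ^ n A = 0` for some `n` and of an object `B` with `Sym ^ m B = 0` for some `m`.
Here `Λ ^ n A = 0` says that every antisymmetric morphism from `A ^ n` vanishes, and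
`Sym ^ m B = 0` says that every symmetric morphism from `B ^ m` vanishes. -/
def IsKimuraFinite (M : C) : Prop :=
  ∃ (A B : C) (i : A ⟶ M) (r : M ⟶ A) (j : B ⟶ M) (s : M ⟶ B),
    i ≫ r = 𝟙 A ∧ j ≫ s = 𝟙 B ∧ r ≫ i + s ≫ j = 𝟙 M ∧
    (∃ n, Kills (-1) A n) ∧ ∃ m, Kills 1 B m

lemma IsKimuraFinite.of_iso {M N : C} (e : M ≅ N) (h : IsKimuraFinite M) : IsKimuraFinite N := by
  obtain ⟨A, B, i, r, j, s, h1, h2, h3, h4, h5⟩ := h
  refine ⟨A, B, i ≫ e.hom, e.inv ≫ r, j ≫ e.hom, e.inv ≫ s, by simp [h1], by simp [h2], ?_, h4, h5⟩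
  have h6 := congrArg (fun z => e.inv ≫ z ≫ e.hom) h3
  simpa using h6

end

section

variable {C : Type u} [Category.{v} C] [Preadditive C] [Linear ℚ C] [MonoidalCategory C]
  [MonoidalPreadditive C] [MonoidalLinear ℚ C] [SymmetricCategory C]

lemma asym_succ_zero {η : ℚ} (hη : η * η = 1) {X : C} {n : ℕ} (h : asym η X n = 0) :
    asym η X (n + 1) = 0 := by
  rw [← (absorb hη X n).1, h]
  simp

end

section

variable {C : Type u} [Category.{v} C] [Preadditive C] [Linear ℚ C] [MonoidalCategory C]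
  [MonoidalPreadditive C] [MonoidalLinear ℚ C] [SymmetricCategory C]
  {K : Type w} [Field K] (R : SuperRealisation C K)

lemma tmul_ne {V W : Type*} [AddCommGroup V] [Module K V] [AddCommGroup W] [Module K W]
    {v : V} {w : W} (hv : v ≠ 0) (hw : w ≠ 0) : (v ⊗ₜ[K] w : TensorProduct K V W) ≠ 0 := by
  intro h
  have h1 : ∃ φ : Module.Dual K V, φ v ≠ 0 := by
    by_contra h2
    push Not at h2
    exact hv ((Module.forall_dual_apply_eq_zero_iff K v).mp h2)
  have h2 : ∃ ψ : Module.Dual K W, ψ w ≠ 0 := by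
    by_contra h2
    push Not at h2
    exact hw ((Module.forall_dual_apply_eq_zero_iff K w).mp h2)
  obtain ⟨φ, hφ⟩ := h1
  obtain ⟨ψ, hψ⟩ := h2
  have h3 := congrArg (TensorProduct.map φ ψ) h
  have h4 := congrArg (TensorProduct.lid K K) h3
  simp only [TensorProduct.map_tmul, TensorProduct.lid_tmul, map_zero, smul_eq_mul] at h4
  exact mul_ne_zero hφ hψ h4

/-- The tensor powers of a vector. -/
noncomputable def tv {A : C} (v : R.H.obj A) : ∀ n : ℕ, R.H.obj (tp A n)
  | 0 => (ε R.H).hom (1 : K)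
  | n + 1 => (μ R.H (tp A n) A).hom
      ((tv v n ⊗ₜ[K] v : TensorProduct K (R.H.obj (tp A n)) (R.H.obj A)))

lemma tv_ne {A : C} {v : R.H.obj A} (hv : v ≠ 0) (n : ℕ) : tv R v n ≠ 0 := by
  induction n with
  | zero =>
    intro h
    have h1 : (η R.H).hom ((ε R.H).hom (1 : K)) = (1 : K) := by
      have h2 := LinearMap.congr_fun (congrArg ModuleCat.Hom.hom (Functor.Monoidal.ε_η R.H)) (1 : K)
      exact h2
    change (ε R.H).hom (1 : K) = 0 at h
    rw [h, map_zero] at h1
    exact zero_ne_one h1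
  | succ n ih =>
    intro h
    have h1 : (δ R.H (tp A n) A).hom ((μ R.H (tp A n) A).hom
        ((tv R v n ⊗ₜ[K] v : TensorProduct K (R.H.obj (tp A n)) (R.H.obj A)))) =
        (tv R v n ⊗ₜ[K] v : TensorProduct K (R.H.obj (tp A n)) (R.H.obj A)) := by
      have h2 := LinearMap.congr_fun (congrArg ModuleCat.Hom.hom
        (Functor.Monoidal.μ_δ R.H (tp A n) A))
        (tv R v n ⊗ₜ[K] v : TensorProduct K (R.H.obj (tp A n)) (R.H.obj A))
      exact h2
    change (μ R.H (tp A n) A).hom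
        ((tv R v n ⊗ₜ[K] v : TensorProduct K (R.H.obj (tp A n)) (R.H.obj A))) = 0 at h
    rw [h, map_zero] at h1
    exact tmul_ne ih hv h1.symm

/-- The exchange of the last two factors multiplies the powers of a vector `v` with
`par v = η v` by `η`. -/
lemma sw_tv {η : ℚ} (hη : η * η = 1) {A : C} {v : R.H.obj A}
    (hv : (R.par A).hom v = ((η : ℚ) : K) • v) (n : ℕ) :
    (R.H.map (sw (tp A n) A)).hom (tv R v (n + 2)) = ((η : ℚ) : K) • tv R v (n + 2) := by
  have hK := R_charZero R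
  have hηK : ((η : ℚ) : K) * ((η : ℚ) : K) = 1 := by exact_mod_cast hη
  -- the exchange of the vectors
  have h1 : (R.H.map (β_ A A).hom).hom ((μ R.H A A).hom
      (v ⊗ₜ[K] v : TensorProduct K (R.H.obj A) (R.H.obj A))) = ((η : ℚ) : K) •
      (μ R.H A A).hom (v ⊗ₜ[K] v : TensorProduct K (R.H.obj A) (R.H.obj A)) := by
    have h2 := LinearMap.congr_fun (congrArg ModuleCat.Hom.hom (R.symm A A))
      (v ⊗ₜ[K] v : TensorProduct K (R.H.obj A) (R.H.obj A))
    have h3 : (2 : K) • (R.H.map (β_ A A).hom).hom ((μ R.H A A).hom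
        (v ⊗ₜ[K] v : TensorProduct K (R.H.obj A) (R.H.obj A))) =
        (μ R.H A A).hom ((β_ (R.H.obj A) (R.H.obj A)).hom.hom
          ((v ⊗ₜ[K] v + (R.par A).hom v ⊗ₜ[K] v + v ⊗ₜ[K] (R.par A).hom v -
            (R.par A).hom v ⊗ₜ[K] (R.par A).hom v :
              TensorProduct K (R.H.obj A) (R.H.obj A)))) := h2
    have h4 : (v ⊗ₜ[K] v + (R.par A).hom v ⊗ₜ[K] v + v ⊗ₜ[K] (R.par A).hom v -
        (R.par A).hom v ⊗ₜ[K] (R.par A).hom v : TensorProduct K (R.H.obj A) (R.H.obj A)) =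
        (2 * ((η : ℚ) : K)) • (v ⊗ₜ[K] v) := by
      rw [hv, TensorProduct.tmul_smul, ← TensorProduct.smul_tmul', ← TensorProduct.smul_tmul',
        TensorProduct.tmul_smul, smul_smul, hηK]
      module
    have h5 : (β_ (R.H.obj A) (R.H.obj A)).hom.hom
        (v ⊗ₜ[K] v : TensorProduct K (R.H.obj A) (R.H.obj A)) =
        (v ⊗ₜ[K] v : TensorProduct K (R.H.obj A) (R.H.obj A)) := rfl
    rw [h4, map_smul, h5, map_smul, mul_smul] at h3
    exact smul_right_injective _ (two_ne_zero (α := K)) h3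
  -- the associativity
  have h6 : (R.H.map (α_ (tp A n) A A).hom).hom (tv R v (n + 2)) =
      (μ R.H (tp A n) (A ⊗ A)).hom (tv R v n ⊗ₜ[K] (μ R.H A A).hom
        (v ⊗ₜ[K] v : TensorProduct K (R.H.obj A) (R.H.obj A)) :
          TensorProduct K (R.H.obj (tp A n)) (R.H.obj (A ⊗ A))) := by
    have h7 := LinearMap.congr_fun (congrArg ModuleCat.Hom.hom
      (Functor.LaxMonoidal.associativity (F := R.H) (tp A n) A A))
      ((tv R v n ⊗ₜ[K] v) ⊗ₜ[K] v : TensorProduct K (TensorProduct K (R.H.obj (tp A n))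
        (R.H.obj A)) (R.H.obj A))
    exact h7
  have h8 : (R.H.map (tp A n ◁ (β_ A A).hom)).hom ((μ R.H (tp A n) (A ⊗ A)).hom
      (tv R v n ⊗ₜ[K] (μ R.H A A).hom (v ⊗ₜ[K] v : TensorProduct K (R.H.obj A) (R.H.obj A)) :
          TensorProduct K (R.H.obj (tp A n)) (R.H.obj (A ⊗ A)))) =
      ((η : ℚ) : K) • (μ R.H (tp A n) (A ⊗ A)).hom (tv R v n ⊗ₜ[K] (μ R.H A A).hom
        (v ⊗ₜ[K] v : TensorProduct K (R.H.obj A) (R.H.obj A)) :
          TensorProduct K (R.H.obj (tp A n)) (R.H.obj (A ⊗ A))) := by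
    have h9 := LinearMap.congr_fun (congrArg ModuleCat.Hom.hom
      (μ_natural_right R.H (tp A n) (β_ A A).hom))
      (tv R v n ⊗ₜ[K] (μ R.H A A).hom (v ⊗ₜ[K] v : TensorProduct K (R.H.obj A) (R.H.obj A)) :
          TensorProduct K (R.H.obj (tp A n)) (R.H.obj (A ⊗ A)))
    have h10 : (μ R.H (tp A n) (A ⊗ A)).hom
        (tv R v n ⊗ₜ[K] (R.H.map (β_ A A).hom).hom ((μ R.H A A).hom
          (v ⊗ₜ[K] v : TensorProduct K (R.H.obj A) (R.H.obj A))) :
          TensorProduct K (R.H.obj (tp A n)) (R.H.obj (A ⊗ A))) =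
        (R.H.map (tp A n ◁ (β_ A A).hom)).hom ((μ R.H (tp A n) (A ⊗ A)).hom
          (tv R v n ⊗ₜ[K] (μ R.H A A).hom (v ⊗ₜ[K] v : TensorProduct K (R.H.obj A) (R.H.obj A)) :
          TensorProduct K (R.H.obj (tp A n)) (R.H.obj (A ⊗ A)))) := h9
    rw [← h10, h1, TensorProduct.tmul_smul, map_smul]
  have h11 : (R.H.map (sw (tp A n) A)).hom (tv R v (n + 2)) =
      (R.H.map (α_ (tp A n) A A).inv).hom ((R.H.map (tp A n ◁ (β_ A A).hom)).hom
        ((R.H.map (α_ (tp A n) A A).hom).hom (tv R v (n + 2)))) := by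
    rw [sw, Functor.map_comp, Functor.map_comp]
    rfl
  have h12 : (R.H.map (α_ (tp A n) A A).inv).hom ((R.H.map (α_ (tp A n) A A).hom).hom
      (tv R v (n + 2))) = tv R v (n + 2) := by
    have h13 : R.H.map (α_ (tp A n) A A).hom ≫ R.H.map (α_ (tp A n) A A).inv = 𝟙 _ := by
      rw [← Functor.map_comp, Iso.hom_inv_id, CategoryTheory.Functor.map_id]
    exact LinearMap.congr_fun (congrArg ModuleCat.Hom.hom h13) (tv R v (n + 2))
  rw [h11, h6, h8, map_smul, ← h6, h12]

/-- The (anti)symmetrizer fixes the powers of such a vector. -/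
lemma asym_tv {η : ℚ} (hη : η * η = 1) {A : C} {v : R.H.obj A}
    (hv : (R.par A).hom v = ((η : ℚ) : K) • v) (n : ℕ) :
    (R.H.map (asym η A n)).hom (tv R v n) = tv R v n := by
  have hK := R_charZero R
  have hηK : ((η : ℚ) : K) * ((η : ℚ) : K) = 1 := by exact_mod_cast hη
  induction n with
  | zero =>
    rw [asym_zero, CategoryTheory.Functor.map_id]
    rfl
  | succ n ih =>
    rcases n with - | n
    · rw [asym_one, CategoryTheory.Functor.map_id]
      rfl
    · have h1 : (R.H.map (asym η A (n + 1) ▷ A)).hom (tv R v (n + 2)) = tv R v (n + 2) := by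
        have h2 := LinearMap.congr_fun (congrArg ModuleCat.Hom.hom
          (μ_natural_left R.H (asym η A (n + 1)) A))
          (tv R v (n + 1) ⊗ₜ[K] v : TensorProduct K (R.H.obj (tp A (n + 1))) (R.H.obj A))
        have h3 : (μ R.H (tp A (n + 1)) A).hom ((R.H.map (asym η A (n + 1))).hom (tv R v (n + 1))
            ⊗ₜ[K] v : TensorProduct K (R.H.obj (tp A (n + 1))) (R.H.obj A)) =
            (R.H.map (asym η A (n + 1) ▷ A)).hom (tv R v (n + 2)) := h2
        rw [← h3, ih]
        rfl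
      have hn : (((n + 1 : ℕ) : K) + 1) ≠ 0 := by
        exact_mod_cast (Nat.succ_ne_zero (n + 1))
      rw [asym_succ, R_smul, Functor.map_add, R_smul, Functor.map_comp, Functor.map_comp,
        ModuleCat.hom_smul, ModuleCat.hom_add, ModuleCat.hom_smul, ModuleCat.hom_comp,
        ModuleCat.hom_comp]
      simp only [LinearMap.smul_apply, LinearMap.add_apply, LinearMap.comp_apply]
      rw [h1, sw_tv R hη hv, map_smul, h1, smul_smul]
      push_cast
      have h4 : ((η : ℚ) : K) * ((n : K) + 1) * ((η : ℚ) : K) = (n : K) + 1 := by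
        linear_combination ((n : K) + 1) * hηK
      rw [h4]
      have h5 : tv R v (n + 2) + ((n : K) + 1) • tv R v (n + 2) =
          ((n : K) + 1 + 1) • tv R v (n + 2) := by module
      push_cast at hn
      rw [h5, smul_smul, inv_mul_cancel₀ hn, one_smul]

/-- The realisation of an object killed by an exterior (symmetric) power is even (odd). -/
lemma par_of_asym {η : ℚ} (hη : η * η = 1) {A : C} {n : ℕ} (h : asym η A n = 0) :
    R.par A = ((-η : ℚ) : K) • 𝟙 _ := by
  have hK := R_charZero R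
  have hηK : ((η : ℚ) : K) * ((η : ℚ) : K) = 1 := by exact_mod_cast hη
  have key : ∀ v : R.H.obj A, (R.par A).hom v = ((η : ℚ) : K) • v → v = 0 := by
    intro v hv
    by_contra h0
    apply tv_ne R h0 n
    rw [← asym_tv R hη hv n, h, Functor.map_zero]
    rfl
  have hpp : ∀ w : R.H.obj A, (R.par A).hom ((R.par A).hom w) = w := fun w =>
    LinearMap.congr_fun (congrArg ModuleCat.Hom.hom (R.par_sq A)) w
  apply ModuleCat.hom_ext
  apply LinearMap.ext
  intro w
  have h1 := key (w + ((η : ℚ) : K) • (R.par A).hom w) (by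
    rw [map_add, map_smul, hpp, smul_add, smul_smul, hηK, one_smul, add_comm])
  rw [ModuleCat.hom_smul, LinearMap.smul_apply]
  change (R.par A).hom w = ((-η : ℚ) : K) • w
  have h2 : ((η : ℚ) : K) • (w + ((η : ℚ) : K) • (R.par A).hom w) = 0 := by rw [h1, smul_zero]
  rw [smul_add, smul_smul, hηK, one_smul] at h2
  rw [eq_neg_of_add_eq_zero_right h2]
  push_cast
  rw [neg_smul]

end

end Pool.Agent.X264.KF
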