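import Pool.Agent.X264.KF.Func

/-!
# Kimura-finiteness and faithful symmetric monoidal functors
-/

set_option autoImplicit false
set_option linter.unusedSectionVars false
set_option linter.unusedSimpArgs false
set_option backward.isDefEq.respectTransparency false
set_option backward.defeqAttrib.useBackward true

open CategoryTheory Limits MonoidalCategory
open Pool.Agent.Y112.SR Pool.Agent.Y112.KD
open Pool.Agent.TH829.Kim (exists_lift)

namespace Pool.Agent.X264.KF

universe v u w v' u'

open Functor.LaxMonoidal Functor.OplaxMonoidal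

section

/-- Lifting of a parity decomposition along an additive functor with a natural involution. -/
lemma exists_split_gen {C : Type u} [Category.{v} C] [Preadditive C] [Linear ℚ C]
    [IsIdempotentComplete C] {K : Type w} [Field K] (hK2 : (2 : K) ≠ 0)
    (G : C ⥤ ModuleCat.{w} K) [G.Additive] (P : ∀ X : C, G.obj X ⟶ G.obj X)
    (Psq : ∀ X, P X ≫ P X = 𝟙 _) (Pnat : ∀ {X Y : C} (f : X ⟶ Y), G.map f ≫ P Y = P X ≫ G.map f)
    {M : C} (f : M ⟶ M) (hf : (2 : K) • G.map f = 𝟙 _ + P M)
    (hnil : ∀ x : End M, G.map (x : M ⟶ M) = 0 → IsNilpotent x) :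
    ∃ (A B : C) (i : A ⟶ M) (r : M ⟶ A) (j : B ⟶ M) (s : M ⟶ B),
      i ≫ r = 𝟙 A ∧ j ≫ s = 𝟙 B ∧ r ≫ i + s ≫ j = 𝟙 M ∧ P A = (1 : K) • 𝟙 _ ∧
      P B = (-1 : K) • 𝟙 _ := by
  have h2 : (2 : K) ≠ 0 := hK2
  have hf1 : G.map f = (2 : K)⁻¹ • (𝟙 _ + P M) := by
    rw [← hf, smul_smul, inv_mul_cancel₀ h2, one_smul]
  have hff : G.map f ≫ G.map f = G.map f := by
    rw [hf1, Linear.smul_comp, Linear.comp_smul, Preadditive.add_comp, Preadditive.comp_add,
      Preadditive.comp_add, Psq, Category.id_comp, Category.id_comp, Category.comp_id,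
      smul_smul]
    have h3 : (𝟙 _ + P M + (P M + 𝟙 (G.obj M))) = (2 : K) • (𝟙 _ + P M) := by
      rw [two_smul]
      abel
    rw [h3, smul_smul, mul_assoc, inv_mul_cancel₀ h2, mul_one]
  let e : End M := f
  obtain ⟨p, c, hp, hpc⟩ := exists_lift (e := e) (hnil _ (by
    have h3 : ((e * e - e : End M) : M ⟶ M) = f ≫ f - f := rfl
    rw [h3, Functor.map_sub, Functor.map_comp, hff, sub_self]))
  have hpr : G.map (p : M ⟶ M) = (2 : K)⁻¹ • (𝟙 _ + P M) := by
    have h3 : (p : M ⟶ M) = f + (c : M ⟶ M) ≫ (f ≫ f - f) := by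
      have h4 : p = e + (e * e - e) * c := by rw [← hpc]; abel
      exact h4
    rw [h3, Functor.map_add, Functor.map_comp, Functor.map_sub, Functor.map_comp, hff, sub_self,
      comp_zero, add_zero, hf1]
  obtain ⟨A, i, r, hir, hri⟩ := IsIdempotentComplete.idempotents_split M (p : M ⟶ M) hp
  have hq : ((1 - p : End M) : M ⟶ M) ≫ ((1 - p : End M) : M ⟶ M) = (1 - p : End M) := by
    have h3 : (1 - p) * (1 - p) = 1 - p := by
      rw [mul_sub, sub_mul, sub_mul, one_mul, one_mul, mul_one, hp, sub_self, sub_zero]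
    exact h3
  obtain ⟨B, j, s, hjs, hsj⟩ := IsIdempotentComplete.idempotents_split M _ hq
  refine ⟨A, B, i, r, j, s, hir, hjs, ?_, ?_, ?_⟩
  · rw [hri, hsj]
    change p + (1 - p) = 1
    abel
  · -- the even part
    have h3 : G.map i ≫ G.map (p : M ⟶ M) = G.map i := by
      rw [← hri, ← Functor.map_comp, ← Category.assoc, hir, Category.id_comp]
    have h4 : G.map i ≫ P M = G.map i := by
      rw [hpr, Linear.comp_smul, Preadditive.comp_add, Category.comp_id] at h3
      have h5 := congrArg (fun z => (2 : K) • z) h3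
      simp only [smul_smul, mul_inv_cancel₀ h2, one_smul] at h5
      rw [two_smul] at h5
      exact add_left_cancel h5
    rw [one_smul]
    have h5 := Pnat i
    rw [h4] at h5
    have h6 : G.map i ≫ G.map r = 𝟙 _ := by
      rw [← Functor.map_comp, hir, CategoryTheory.Functor.map_id]
    have h7 := congrArg (fun z => z ≫ G.map r) h5
    simp only [Category.assoc, h6, Category.comp_id] at h7
    exact h7.symm
  · let q' : M ⟶ M := (1 - p : End M)
    have hq' : s ≫ j = q' := hsj
    have h3 : G.map j ≫ G.map q' = G.map j := by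
      rw [← hq', ← Functor.map_comp, ← Category.assoc, hjs, Category.id_comp]
    have h3' : G.map q' = 𝟙 _ - (2 : K)⁻¹ • (𝟙 _ + P M) := by
      let p' : M ⟶ M := p
      have hpr' : G.map p' = (2 : K)⁻¹ • (𝟙 _ + P M) := hpr
      change G.map (𝟙 M - p') = _
      rw [Functor.map_sub, CategoryTheory.Functor.map_id, hpr']
    have h4 : G.map j ≫ P M = -G.map j := by
      rw [h3', Preadditive.comp_sub, Category.comp_id, Linear.comp_smul, Preadditive.comp_add,
        Category.comp_id, sub_eq_self, smul_eq_zero] at h3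
      have h5 := h3.resolve_left (inv_ne_zero h2)
      exact (neg_eq_of_add_eq_zero_right h5).symm
    rw [neg_smul, one_smul]
    have h5 := Pnat j
    rw [h4] at h5
    have h6 : G.map j ≫ G.map s = 𝟙 _ := by
      rw [← Functor.map_comp, hjs, CategoryTheory.Functor.map_id]
    have h7 := congrArg (fun z => z ≫ G.map s) h5
    simp only [Category.assoc, h6, Category.comp_id, Preadditive.neg_comp] at h7
    exact h7.symm

end

section

variable {C : Type u} [Category.{v} C] [Preadditive C] [Linear ℚ C] [MonoidalCategory C]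
  [MonoidalPreadditive C] [MonoidalLinear ℚ C] [SymmetricCategory C]
  {D : Type u'} [Category.{v'} D] [Preadditive D] [Linear ℚ D] [MonoidalCategory D]
  [MonoidalPreadditive D] [MonoidalLinear ℚ D] [SymmetricCategory D]
  (π : C ⥤ D) [π.Additive] [π.Braided]
  {K : Type w} [Field K] (R : SuperRealisation D K)

/-- The projector to the even part of the realisation of `π M` is induced by an endomorphism
of `M`. -/
def EvenPartIn (M : C) : Prop :=
  ∃ f : M ⟶ M, (2 : K) • R.H.map (π.map f) = 𝟙 _ + R.par (π.obj M)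

/-- The realisation of `π M` carries a weight operator `W`, and the endomorphisms of `π M` have
parts of degree zero `ρ g`, which are endomorphisms of `M`: if the realisation of `g` is
homogeneous of degree zero, that is, commutes with `W`, then it is the realisation of `ρ g`. -/
def DegreeZeroParts (M : C) : Prop :=
  ∃ (W : R.H.obj (π.obj M) ⟶ R.H.obj (π.obj M)) (ρ : (π.obj M ⟶ π.obj M) → (M ⟶ M)),
    W ≫ R.par (π.obj M) = R.par (π.obj M) ≫ W ∧
    ∀ g : π.obj M ⟶ π.obj M, W ≫ R.H.map g = R.H.map g ≫ W → R.H.map (π.map (ρ g)) = R.H.map g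

/-- A finite group `G` acts on the abelian group `A` (the endomorphisms of `π M`), all invariant
elements come from elements of `B` (the endomorphisms of `M`) under `φ`, and the action preserves
the elements with realisation `p` (the parity operator). -/
def GaloisAction {A B V : Type*} [AddCommGroup A] (φ : B → A) (r : A → V) (p : V) : Prop :=
  ∃ (G : Type) (_ : Group G) (_ : Finite G) (_ : DistribMulAction G A),
    (∀ g : A, (∀ a : G, a • g = g) → ∃ f, φ f = g) ∧
    ∀ (a : G) (g : A), r g = p → r (a • g) = p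

/-- A finite group acts on the endomorphisms of `π M`, all invariant endomorphisms come from
endomorphisms of `M`, and the action preserves the endomorphisms whose realisation is the parity
operator. -/
def GaloisDescent (M : C) : Prop :=
  GaloisAction (fun f : M ⟶ M => π.map f) (fun g : π.obj M ⟶ π.obj M => R.H.map g)
    (R.par (π.obj M))

lemma cplus_of_kf {N : D} (h : IsKimuraFinite N) : R.CPlus N := by
  have hK := R_charZero R
  have e1 : ((-1 : ℚ) * (-1)) = 1 := by norm_num
  have e2 : ((1 : ℚ) * 1) = 1 := by norm_num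
  obtain ⟨A, B, i, r, j, s, h1, h2, h3, ⟨n, h4⟩, ⟨m, h5⟩⟩ := id h
  have h6 := par_of_asym R e1 ((kills_iff e1 A n).mp h4)
  have h7 := par_of_asym R e2 ((kills_iff e2 B m).mp h5)
  rw [cplus_iff]
  refine ⟨r ≫ i - s ≫ j, ?_⟩
  have h8 : R.H.map (r ≫ i) ≫ R.par N = R.H.map (r ≫ i) := by
    rw [Functor.map_comp, Category.assoc, R.par_natural, h6]
    simp
  have h9 : R.H.map (s ≫ j) ≫ R.par N = -R.H.map (s ≫ j) := by
    rw [Functor.map_comp, Category.assoc, R.par_natural, h7]
    simp
  have h10 : R.par N = R.H.map (r ≫ i + s ≫ j) ≫ R.par N := by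
    rw [h3, CategoryTheory.Functor.map_id, Category.id_comp]
  rw [h10, Functor.map_add, Preadditive.add_comp, h8, h9, Functor.map_sub, sub_eq_add_neg]

/-- The even part of the image of a Kimura-finite object. -/
lemma evenPart_of_kf {M : C} (h : IsKimuraFinite M) : EvenPartIn π R M := by
  have hK := R_charZero R
  have e1 : ((-1 : ℚ) * (-1)) = 1 := by norm_num
  have e2 : ((1 : ℚ) * 1) = 1 := by norm_num
  obtain ⟨A, B, i, r, j, s, h1, h2, h3, ⟨n, h4⟩, ⟨m, h5⟩⟩ := id h
  have h6 := par_of_asym R e1 (asym_map_zero π ((kills_iff e1 A n).mp h4))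
  have h7 := par_of_asym R e2 (asym_map_zero π ((kills_iff e2 B m).mp h5))
  refine ⟨r ≫ i, ?_⟩
  have h8 : R.H.map (π.map (r ≫ i)) ≫ R.par (π.obj M) = R.H.map (π.map (r ≫ i)) := by
    rw [Functor.map_comp, Functor.map_comp, Category.assoc, R.par_natural, h6]
    simp
  have h9 : R.H.map (π.map (s ≫ j)) ≫ R.par (π.obj M) = -R.H.map (π.map (s ≫ j)) := by
    rw [Functor.map_comp, Functor.map_comp, Category.assoc, R.par_natural, h7]
    simp
  have h11 : 𝟙 (R.H.obj (π.obj M)) = R.H.map (π.map (r ≫ i)) + R.H.map (π.map (s ≫ j)) := by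
    rw [← Functor.map_add, ← Functor.map_add, h3, CategoryTheory.Functor.map_id,
      CategoryTheory.Functor.map_id]
  have h10 : R.par (π.obj M) = R.H.map (π.map (r ≫ i)) - R.H.map (π.map (s ≫ j)) := by
    rw [← Category.id_comp (R.par (π.obj M)), h11, Preadditive.add_comp, h8, h9, sub_eq_add_neg]
  rw [h10, h11, two_smul]
  abel

variable [RightRigidCategory D] [π.Faithful] [IsIdempotentComplete C]

/-- Descent of Kimura-finiteness along a faithful functor. -/
theorem kf_desc (hU : UnitQ D) {M : C} (h : IsKimuraFinite (π.obj M)) (hM : EvenPartIn π R M) :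
    IsKimuraFinite M := by
  have hK := R_charZero R
  have e1 : ((-1 : ℚ) * (-1)) = 1 := by norm_num
  have e2 : ((1 : ℚ) * 1) = 1 := by norm_num
  obtain ⟨f, hf⟩ := hM
  have hnil : ∀ x : End M, (π ⋙ R.H).map (x : M ⟶ M) = 0 → IsNilpotent x := by
    intro x hx
    let y : End (π.obj M) := π.map (x : M ⟶ M)
    obtain ⟨k, hk⟩ := nil_of_kf R hU h y hx
    have hpow : ∀ l : ℕ, π.map ((x ^ l : End M) : M ⟶ M) = (y ^ l : End (π.obj M)) := by
      intro l
      induction l with
      | zero =>
        rw [pow_zero, pow_zero]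
        exact π.map_id M
      | succ l ih => rw [pow_succ, pow_succ, End.mul_def, End.mul_def, Functor.map_comp, ih]
    refine ⟨k, ?_⟩
    have h1 := hpow k
    rw [hk] at h1
    apply π.map_injective
    rw [h1]
    exact (Functor.map_zero π M M).symm
  obtain ⟨A, B, i, r, j, s, h1, h2, h3, h4, h5⟩ := exists_split_gen two_ne_zero (π ⋙ R.H)
    (fun X => R.par (π.obj X)) (fun X => R.par_sq _) (fun g => R.par_natural _) f hf hnil
  refine ⟨A, B, i, r, j, s, h1, h2, h3, ?_, ?_⟩
  · obtain ⟨n, hn⟩ := kill_retract R hU h (η := -1) (Or.inr rfl) (π.map i) (π.map r)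
      (by rw [← Functor.map_comp, h1, CategoryTheory.Functor.map_id])
      (by rw [h4]; push_cast; rw [neg_neg]; rfl)
    exact ⟨n, (kills_iff e1 A n).mpr (asym_zero_of_map π hn)⟩
  · obtain ⟨n, hn⟩ := kill_retract R hU h (η := 1) (Or.inl rfl) (π.map j) (π.map s)
      (by rw [← Functor.map_comp, h2, CategoryTheory.Functor.map_id])
      (by rw [h5]; push_cast; rfl)
    exact ⟨n, (kills_iff e2 B n).mpr (asym_zero_of_map π hn)⟩

theorem kf_iff (hU : UnitQ D) (M : C) :
    IsKimuraFinite M ↔ IsKimuraFinite (π.obj M) ∧ EvenPartIn π R M :=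
  ⟨fun h => ⟨kf_map π h, evenPart_of_kf π R h⟩, fun h => kf_desc π R hU h.1 h.2⟩

lemma evenPart_of_degreeZero {M : C} (hρ : DegreeZeroParts π R M) (h : R.CPlus (π.obj M)) :
    EvenPartIn π R M := by
  obtain ⟨W, ρ, h1, h2⟩ := hρ
  obtain ⟨g, hg⟩ := h
  have hK := R_charZero R
  refine ⟨ρ g, ?_⟩
  rw [h2 g ?_, hg]
  have h3 : R.H.map g = (2 : K)⁻¹ • (𝟙 _ + R.par (π.obj M)) := by
    rw [← hg, smul_smul, inv_mul_cancel₀ two_ne_zero, one_smul]
  rw [h3, Linear.comp_smul, Linear.smul_comp, Preadditive.comp_add, Preadditive.add_comp, h1,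
    Category.comp_id, Category.id_comp]

lemma evenPart_of_galois {M : C} (hG : GaloisDescent π R M) (h : R.CPlus (π.obj M)) :
    EvenPartIn π R M := by
  obtain ⟨G, _, _, _, h2, h3⟩ := hG
  have := Fintype.ofFinite G
  have hK := R_charZero R
  obtain ⟨g, hg⟩ := (cplus_iff R _).mp h
  obtain ⟨f, hf⟩ := h2 (∑ a : G, a • g) (by
    intro b
    rw [Finset.smul_sum]
    have h4 : ∀ a : G, b • a • g = (b * a) • g := fun a => smul_smul b a g
    rw [Finset.sum_congr rfl (fun a _ => h4 a)]
    exact Fintype.sum_equiv (Equiv.mulLeft b) _ _ (fun a => rfl))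
  change π.map f = _ at hf
  have h5 : R.H.map (π.map f) = (Fintype.card G : K) • R.par (π.obj M) := by
    rw [hf, Functor.map_sum, Finset.sum_congr rfl (fun a _ => h3 a g hg), Finset.sum_const,
      Finset.card_univ, Nat.cast_smul_eq_nsmul]
  have hc : (Fintype.card G : K) ≠ 0 := by exact_mod_cast Fintype.card_ne_zero
  refine ⟨(2⁻¹ : ℚ) • (𝟙 M + ((Fintype.card G : ℚ)⁻¹) • f), ?_⟩
  rw [map_rat π, Functor.map_add, map_rat π, R_smul, Functor.map_add, R_smul,
    CategoryTheory.Functor.map_id, CategoryTheory.Functor.map_id, h5, smul_smul, smul_smul]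
  push_cast
  rw [inv_mul_cancel₀ hc, mul_inv_cancel₀ two_ne_zero, one_smul, one_smul]

end

end Pool.Agent.X264.KF
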