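import Pool.Agent.X264.KF.Tensor

/-!
# Symmetrizers and symmetric monoidal functors
-/

set_option autoImplicit false
set_option linter.unusedSectionVars false
set_option linter.unusedSimpArgs false
set_option backward.isDefEq.respectTransparency false
set_option backward.defeqAttrib.useBackward true

open CategoryTheory Limits MonoidalCategory
open Pool.Agent.Y112.SR Pool.Agent.Y112.KD

namespace Pool.Agent.X264.KF

universe v u w v' u'

open Functor.LaxMonoidal Functor.OplaxMonoidal

section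

variable {C : Type u} [Category.{v} C] [MonoidalCategory C] [SymmetricCategory C]
  {D : Type u'} [Category.{v'} D] [MonoidalCategory D] [SymmetricCategory D]
  (π : C ⥤ D) [π.Braided]

/-- The functor is compatible with the exchange of the last two factors. -/
lemma sw_map (Q X : C) : (μ π Q X ▷ π.obj X ≫ μ π (Q ⊗ X) X) ≫ π.map (sw Q X) =
    sw (π.obj Q) (π.obj X) ≫ (μ π Q X ▷ π.obj X ≫ μ π (Q ⊗ X) X) := by
  have h1 := Functor.LaxMonoidal.associativity (F := π) Q X X
  have h2 := Functor.LaxMonoidal.associativity_inv (F := π) Q X X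
  have h3 := μ_natural_right π Q (β_ X X).hom
  have h4 := Functor.LaxBraided.braided (F := π) X X
  simp only [sw, Functor.map_comp, Category.assoc]
  rw [reassoc_of% h1, reassoc_of% (h3).symm, ← h2]
  have h5 : π.obj Q ◁ μ π X X ≫ π.obj Q ◁ π.map (β_ X X).hom =
      π.obj Q ◁ (β_ (π.obj X) (π.obj X)).hom ≫ π.obj Q ◁ μ π X X := by
    rw [← MonoidalCategory.whiskerLeft_comp, h4, MonoidalCategory.whiskerLeft_comp]
  rw [reassoc_of% h5]

/-- The comparison of the tensor powers. -/
def tpF (X : C) : ∀ n : ℕ, (tp (π.obj X) n ⟶ π.obj (tp X n))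
  | 0 => ε π
  | n + 1 => (tpF X n ▷ π.obj X) ≫ μ π (tp X n) X

lemma tpF_succ (X : C) (n : ℕ) : tpF π X (n + 1) = (tpF π X n ▷ π.obj X) ≫ μ π (tp X n) X := rfl

lemma tpF_iso (X : C) (n : ℕ) : ∃ b : π.obj (tp X n) ⟶ tp (π.obj X) n,
    tpF π X n ≫ b = 𝟙 _ ∧ b ≫ tpF π X n = 𝟙 _ := by
  induction n with
  | zero => exact ⟨η π, Functor.Monoidal.ε_η π, Functor.Monoidal.η_ε π⟩
  | succ n ih =>
    obtain ⟨b, h1, h2⟩ := ih
    refine ⟨δ π (tp X n) X ≫ b ▷ π.obj X, ?_, ?_⟩
    · rw [tpF_succ, Category.assoc, Functor.Monoidal.μ_δ_assoc, ← comp_whiskerRight, h1,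
        id_whiskerRight]
    · rw [tpF_succ, Category.assoc, ← comp_whiskerRight_assoc, h2, id_whiskerRight,
        Category.id_comp, Functor.Monoidal.δ_μ]

lemma tpF_sw (X : C) (n : ℕ) : tpF π X (n + 2) ≫ π.map (sw (tp X n) X) =
    sw (tp (π.obj X) n) (π.obj X) ≫ tpF π X (n + 2) := by
  have h1 : tpF π X (n + 2) = ((tpF π X n ▷ π.obj X) ▷ π.obj X) ≫
      (μ π (tp X n) X ▷ π.obj X ≫ μ π (tp X n ⊗ X) X) := by
    rw [tpF_succ, tpF_succ, comp_whiskerRight]
    simp only [Category.assoc]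
  rw [h1, Category.assoc, sw_map, ← Category.assoc, sw_nat_left, Category.assoc]

end

section

variable {C : Type u} [Category.{v} C] [Preadditive C] [Linear ℚ C] [MonoidalCategory C]
  [MonoidalPreadditive C] [MonoidalLinear ℚ C] [SymmetricCategory C]
  {D : Type u'} [Category.{v'} D] [Preadditive D] [Linear ℚ D] [MonoidalCategory D]
  [MonoidalPreadditive D] [MonoidalLinear ℚ D] [SymmetricCategory D]
  (π : C ⥤ D) [π.Additive] [π.Braided]

/-- An additive functor between `ℚ`-linear categories is `ℚ`-linear. -/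
lemma map_rat {X Y : C} (q : ℚ) (f : X ⟶ Y) : π.map (q • f) = q • π.map f := by
  have h1 : (q.den : ℚ) • π.map (q • f) = (q.num : ℚ) • π.map f := by
    rw [Nat.cast_smul_eq_nsmul, Int.cast_smul_eq_zsmul, ← Functor.map_nsmul, ← Functor.map_zsmul,
      ← Nat.cast_smul_eq_nsmul ℚ, ← Int.cast_smul_eq_zsmul ℚ, smul_smul, Rat.den_mul_eq_num]
  have h2 : (q.den : ℚ) ≠ 0 := by exact_mod_cast q.den_nz
  have h3 := congrArg (fun z => (q.den : ℚ)⁻¹ • z) h1
  simp only [smul_smul, inv_mul_cancel₀ h2, one_smul] at h3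
  rw [h3, mul_comm, ← div_eq_mul_inv, Rat.num_div_den]

/-- The functor is compatible with the (anti)symmetrizers. -/
lemma tpF_asym (η : ℚ) (X : C) (n : ℕ) : tpF π X n ≫ π.map (asym η X n) =
    asym η (π.obj X) n ≫ tpF π X n := by
  induction n with
  | zero => simp [asym_zero]
  | succ n ih =>
    rcases n with - | n
    · simp [asym_one]
    · have h1 : tpF π X (n + 2) ≫ π.map (asym η X (n + 1) ▷ X) =
          (asym η (π.obj X) (n + 1) ▷ π.obj X) ≫ tpF π X (n + 2) := by
        rw [tpF_succ, Category.assoc, ← μ_natural_left, ← comp_whiskerRight_assoc, ih,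
          comp_whiskerRight_assoc]
      have h2 := tpF_sw π X n
      rw [asym_succ, asym_succ, map_rat, Functor.map_add, map_rat, Functor.map_comp,
        Functor.map_comp, Linear.comp_smul, Preadditive.comp_add, Linear.comp_smul,
        Linear.smul_comp, Preadditive.add_comp, Linear.smul_comp]
      simp only [Category.assoc]
      rw [h1, reassoc_of% h1, reassoc_of% h2, h1]

lemma asym_map_zero {η : ℚ} {X : C} {n : ℕ} (h : asym η X n = 0) : asym η (π.obj X) n = 0 := by
  obtain ⟨b, h1, h2⟩ := tpF_iso π X n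
  have h3 := tpF_asym π η X n
  rw [h, Functor.map_zero, comp_zero] at h3
  rw [← Category.comp_id (asym η (π.obj X) n), ← h1, ← Category.assoc, ← h3, zero_comp]

lemma asym_zero_of_map [π.Faithful] {η : ℚ} {X : C} {n : ℕ} (h : asym η (π.obj X) n = 0) :
    asym η X n = 0 := by
  obtain ⟨b, h1, h2⟩ := tpF_iso π X n
  have h3 := tpF_asym π η X n
  rw [h, zero_comp] at h3
  apply π.map_injective
  rw [Functor.map_zero, ← Category.id_comp (π.map (asym η X n)), ← h2, Category.assoc, h3,
    comp_zero]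

/-- The image of a Kimura-finite object is Kimura-finite. -/
lemma kf_map {M : C} (h : IsKimuraFinite M) : IsKimuraFinite (π.obj M) := by
  have e1 : ((-1 : ℚ) * (-1)) = 1 := by norm_num
  have e2 : ((1 : ℚ) * 1) = 1 := by norm_num
  obtain ⟨A, B, i, r, j, s, h1, h2, h3, ⟨n, h4⟩, ⟨m, h5⟩⟩ := h
  refine ⟨π.obj A, π.obj B, π.map i, π.map r, π.map j, π.map s, ?_, ?_, ?_, ⟨n, ?_⟩, ⟨m, ?_⟩⟩
  · rw [← Functor.map_comp, h1, CategoryTheory.Functor.map_id]
  · rw [← Functor.map_comp, h2, CategoryTheory.Functor.map_id]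
  · rw [← Functor.map_comp, ← Functor.map_comp, ← Functor.map_add, h3,
      CategoryTheory.Functor.map_id]
  · exact (kills_iff e1 _ n).mpr (asym_map_zero π ((kills_iff e1 A n).mp h4))
  · exact (kills_iff e2 _ m).mpr (asym_map_zero π ((kills_iff e2 B m).mp h5))

end

end Pool.Agent.X264.KF
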