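import Pool.Agent.X264.KF.Desc

/-!
# Objects which become isomorphic under a graded faithful functor
-/

set_option autoImplicit false
set_option linter.unusedSectionVars false
set_option linter.unusedSimpArgs false
set_option backward.isDefEq.respectTransparency false
set_option backward.defeqAttrib.useBackward true

open CategoryTheory Limits MonoidalCategory
open Pool.Agent.Y112.SR Pool.Agent.Y112.KD

namespace Pool.Agent.X264.KF

universe v u w v' u'

open Functor.LaxMonoidal Functor.OplaxMonoidal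

section

variable {C : Type u} [Category.{v} C] [Preadditive C] [Linear ℚ C] [MonoidalCategory C]
  [MonoidalPreadditive C] [MonoidalLinear ℚ C] [SymmetricCategory C]
  {D : Type u'} [Category.{v'} D] [Preadditive D] [Linear ℚ D] [MonoidalCategory D]
  [MonoidalPreadditive D] [MonoidalLinear ℚ D] [SymmetricCategory D]
  (π : C ⥤ D) [π.Additive] [π.Braided]
  {K : Type w} [Field K] (R : SuperRealisation D K)

/-- The realisations of the objects `π M` are graded by weights, the operator `W M` being
multiplication by the weight; the realisations of morphisms of `C` preserve the weights. -/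
structure WeightOps where
  /-- multiplication by the weight -/
  W (M : C) : R.H.obj (π.obj M) ⟶ R.H.obj (π.obj M)
  par (M : C) : W M ≫ R.par (π.obj M) = R.par (π.obj M) ≫ W M
  nat {M N : C} (f : M ⟶ N) : W M ≫ R.H.map (π.map f) = R.H.map (π.map f) ≫ W N

/-- The realisations of the objects `π M` are graded by weights, and the morphisms from `π M` to
`π N` have parts of degree zero, which are morphisms from `M` to `N`: if the realisation of a
morphism `g` preserves the weights then it is the realisation of the part of degree zero of `g`. -/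
structure Weights extends WeightOps π R where
  /-- the part of degree zero -/
  zero {M N : C} (g : π.obj M ⟶ π.obj N) : M ⟶ N
  real {M N : C} (g : π.obj M ⟶ π.obj N) (h : W M ≫ R.H.map g = R.H.map g ≫ W N) :
    R.H.map (π.map (zero g)) = R.H.map g

variable {π R}

/-- The isomorphism `φ` of `π M` and `π N` preserves the weights of the realisations. -/
def Weights.Graded (𝒲 : Weights π R) {M N : C} (φ : π.obj M ≅ π.obj N) : Prop :=
  𝒲.W M ≫ R.H.map φ.hom = R.H.map φ.hom ≫ 𝒲.W N

/-- The objects `M` and `N` are isomorphic modulo morphisms with vanishing realisation. -/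
def HomologicallyIsomorphic (π : C ⥤ D) (R : SuperRealisation D K) (M N : C) : Prop :=
  ∃ (f : M ⟶ N) (g : N ⟶ M), R.H.map (π.map (f ≫ g - 𝟙 M)) = 0 ∧
    R.H.map (π.map (g ≫ f - 𝟙 N)) = 0

variable [RightRigidCategory D] [π.Faithful]

lemma degreeZero_of_weights (𝒲 : Weights π R) (M : C) : DegreeZeroParts π R M :=
  ⟨𝒲.W M, 𝒲.zero, 𝒲.par M, fun g h => 𝒲.real g h⟩

lemma nil_in (hU : UnitQ D) {M : C} (h : IsKimuraFinite (π.obj M)) (x : End M)
    (hx : R.H.map (π.map (x : M ⟶ M)) = 0) : IsNilpotent x := by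
  let y : End (π.obj M) := π.map (x : M ⟶ M)
  obtain ⟨k, hk⟩ := nil_of_kf R hU h y hx
  have hpow : ∀ l : ℕ, π.map ((x ^ l : End M) : M ⟶ M) = (y ^ l : End (π.obj M)) := by
    intro l
    induction l with
    | zero =>
      rw [pow_zero, pow_zero]
      exact π.map_id M
    | succ l ih => rw [pow_succ, pow_succ, End.mul_def, End.mul_def, Functor.map_comp, ih]
  refine ⟨k, ?_⟩
  have h1 := hpow k
  rw [hk] at h1
  apply π.map_injective
  rw [h1]
  exact (Functor.map_zero π M M).symm

/-- An endomorphism which is the identity up to an endomorphism with vanishing realisation. -/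
lemma unit_of (hU : UnitQ D) {M : C} (h : IsKimuraFinite (π.obj M)) (x : M ⟶ M)
    (hx : R.H.map (π.map (x - 𝟙 M)) = 0) : ∃ y : M ⟶ M, x ≫ y = 𝟙 M ∧ y ≫ x = 𝟙 M := by
  let z : End M := (x - 𝟙 M : M ⟶ M)
  have hz : IsNilpotent z := nil_in hU h z hx
  obtain ⟨u, hu⟩ := hz.isUnit_add_one
  have h1 : (u : End M) = (x : M ⟶ M) := by
    rw [hu]
    change (x - 𝟙 M) + 𝟙 M = x
    abel
  refine ⟨((↑u⁻¹ : End M) : M ⟶ M), ?_, ?_⟩
  · rw [← h1, ← End.mul_def, Units.inv_mul]
    rfl
  · rw [← h1, ← End.mul_def, Units.mul_inv]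
    rfl

theorem iso_of_hom (hU : UnitQ D) {M N : C} (hM : IsKimuraFinite (π.obj M))
    (hN : IsKimuraFinite (π.obj N)) (h : HomologicallyIsomorphic π R M N) : Nonempty (M ≅ N) := by
  obtain ⟨f, g, h1, h2⟩ := h
  obtain ⟨y, h3, -⟩ := unit_of hU hM _ h1
  obtain ⟨z, -, h4⟩ := unit_of hU hN _ h2
  -- `f` has the right inverse `g ≫ y` and the left inverse `z ≫ g`
  have h5 : f ≫ (g ≫ y) = 𝟙 M := by rw [← Category.assoc, h3]
  have h6 : (z ≫ g) ≫ f = 𝟙 N := by rw [Category.assoc, h4]
  have h7 : g ≫ y = z ≫ g := by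
    calc g ≫ y = ((z ≫ g) ≫ f) ≫ (g ≫ y) := by rw [h6, Category.id_comp]
      _ = (z ≫ g) ≫ (f ≫ (g ≫ y)) := by simp only [Category.assoc]
      _ = z ≫ g := by rw [h5, Category.comp_id]
  exact ⟨⟨f, g ≫ y, h5, by rw [h7, h6]⟩⟩

variable [IsIdempotentComplete C]

theorem kf_partner (hU : UnitQ D) (𝒲 : Weights π R) {M N : C} (φ : π.obj M ≅ π.obj N) :
    IsKimuraFinite M ↔ IsKimuraFinite N := by
  have key : ∀ M : C, IsKimuraFinite M ↔ IsKimuraFinite (π.obj M) := fun M =>
    ⟨kf_map π, fun h1 => (kf_iff π R hU M).mpr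
      ⟨h1, evenPart_of_degreeZero π R (degreeZero_of_weights 𝒲 M) (cplus_of_kf R h1)⟩⟩
  rw [key M, key N]
  exact ⟨fun h => h.of_iso φ, fun h => h.of_iso φ.symm⟩

theorem iso_iff_graded (hU : UnitQ D) (𝒲 : Weights π R) {M N : C} (hM : IsKimuraFinite M) :
    Nonempty (M ≅ N) ↔ ∃ φ : π.obj M ≅ π.obj N, 𝒲.Graded φ := by
  constructor
  · rintro ⟨e⟩
    exact ⟨π.mapIso e, 𝒲.nat e.hom⟩
  · rintro ⟨φ, hφ⟩
    have hM' : IsKimuraFinite (π.obj M) := kf_map π hM
    have hN' : IsKimuraFinite (π.obj N) := hM'.of_iso φ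
    have hinv : 𝒲.W N ≫ R.H.map φ.inv = R.H.map φ.inv ≫ 𝒲.W M := by
      have h1 := congrArg (fun z => R.H.map φ.inv ≫ z ≫ R.H.map φ.inv) hφ
      simp only [Category.assoc] at h1
      rw [← Functor.map_comp, Iso.hom_inv_id, CategoryTheory.Functor.map_id, Category.comp_id,
        ← Functor.map_comp_assoc, Iso.inv_hom_id, CategoryTheory.Functor.map_id,
        Category.id_comp] at h1
      exact h1.symm
    have h1 := 𝒲.real φ.hom hφ
    have h2 := 𝒲.real φ.inv hinv
    refine iso_of_hom (R := R) hU hM' hN' ⟨𝒲.zero φ.hom, 𝒲.zero φ.inv, ?_, ?_⟩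
    · rw [Functor.map_sub, Functor.map_sub, Functor.map_comp, Functor.map_comp, h1, h2,
        ← Functor.map_comp, Iso.hom_inv_id, CategoryTheory.Functor.map_id,
        CategoryTheory.Functor.map_id, CategoryTheory.Functor.map_id, sub_self]
    · rw [Functor.map_sub, Functor.map_sub, Functor.map_comp, Functor.map_comp, h1, h2,
        ← Functor.map_comp, Iso.inv_hom_id, CategoryTheory.Functor.map_id,
        CategoryTheory.Functor.map_id, CategoryTheory.Functor.map_id, sub_self]

end

end Pool.Agent.X264.KF
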