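import Pool.Agent.X264.KF.Desc

/-!
# Objects dominated by Kimura-finite objects
-/

set_option autoImplicit false
set_option linter.unusedSectionVars false
set_option linter.unusedSimpArgs false
set_option backward.isDefEq.respectTransparency false
set_option backward.defeqAttrib.useBackward true

open CategoryTheory Limits MonoidalCategory
open Pool.Agent.Y112.SR Pool.Agent.Y112.KD
open Pool.Agent.TH829.Kim (exists_lift)

namespace Pool.Agent.X264.KF

universe v u w

section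

variable {C : Type u} [Category.{v} C] [Preadditive C] [Linear ℚ C] [MonoidalCategory C]
  [SymmetricCategory C] {K : Type w} [Field K] (R : SuperRealisation C K)

/-- The identity of the realisation of `M` is induced by a composition `M ⟶ N ⟶ M` for some
Kimura-finite object `N`. -/
def Dominated (M : C) : Prop :=
  ∃ (N : C) (α : M ⟶ N) (β : N ⟶ M), IsKimuraFinite N ∧ R.H.map (α ≫ β) = 𝟙 _

/-- `A` is Kimura-finite and `M` is the direct sum of `A` and of an object `P` with vanishing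
realisation (a phantom). -/
def KimuraPart (M A : C) : Prop :=
  IsKimuraFinite A ∧ ∃ (P : C) (i : A ⟶ M) (r : M ⟶ A) (j : P ⟶ M) (s : M ⟶ P),
    i ≫ r = 𝟙 A ∧ j ≫ s = 𝟙 P ∧ r ≫ i + s ≫ j = 𝟙 M ∧ IsZero (R.H.obj P)

end

section

variable {C : Type u} [Category.{v} C] [Preadditive C] [Linear ℚ C] [MonoidalCategory C]
  [MonoidalPreadditive C] [MonoidalLinear ℚ C] [SymmetricCategory C] [RightRigidCategory C]
  {K : Type w} [Field K] (R : SuperRealisation C K)

/-- The powers of a composition. -/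
lemma comp_pow {M N : C} (a : M ⟶ N) (b : N ⟶ M) (l : ℕ) :
    ((show End M from a ≫ b) ^ (l + 1) : End M) =
      (a ≫ ((show End N from b ≫ a) ^ l : End N) ≫ b : M ⟶ M) := by
  induction l with
  | zero =>
    rw [pow_zero, zero_add, pow_one]
    change a ≫ b = a ≫ 𝟙 N ≫ b
    rw [Category.id_comp]
  | succ l ih =>
    rw [pow_succ, ih, End.mul_def, pow_succ (show End N from b ≫ a), End.mul_def]
    simp only [Category.assoc]

lemma nil_of_retract (hU : UnitQ C) {M X : C} (hM : IsKimuraFinite M) (a : X ⟶ M) (b : M ⟶ X)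
    (hab : a ≫ b = 𝟙 X) (x : End X) (hx : R.H.map (x : X ⟶ X) = 0) : IsNilpotent x := by
  let y : End M := (b ≫ (x : X ⟶ X) ≫ a : M ⟶ M)
  have hy : R.H.map (y : M ⟶ M) = 0 := by
    change R.H.map (b ≫ (x : X ⟶ X) ≫ a) = 0
    rw [Functor.map_comp, Functor.map_comp, hx, zero_comp, comp_zero]
  obtain ⟨k, hk⟩ := nil_of_kf R hU hM y hy
  have hpow : ∀ l : ℕ, (a ≫ (y ^ l : End M) ≫ b : X ⟶ X) = (x ^ l : End X) := by
    intro l
    induction l with
    | zero =>
      rw [pow_zero, pow_zero]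
      change a ≫ 𝟙 M ≫ b = 𝟙 X
      rw [Category.id_comp, hab]
    | succ l ih =>
      rw [pow_succ, pow_succ, End.mul_def, End.mul_def, ← ih]
      change a ≫ ((b ≫ (x : X ⟶ X) ≫ a) ≫ (y ^ l : End M)) ≫ b =
        (x : X ⟶ X) ≫ a ≫ (y ^ l : End M) ≫ b
      simp only [Category.assoc]
      rw [reassoc_of% hab]
  exact ⟨k, by
    rw [← hpow k, hk]
    change a ≫ (0 : M ⟶ M) ≫ b = 0
    rw [zero_comp, comp_zero]⟩

/-- An endomorphism with realisation `1` of an object with nil kernel is invertible. -/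
lemma inv_of_nil {X : C} (hnil : ∀ x : End X, R.H.map (x : X ⟶ X) = 0 → IsNilpotent x)
    (x : X ⟶ X) (hx : R.H.map x = 𝟙 _) : ∃ y : X ⟶ X, x ≫ y = 𝟙 X ∧ y ≫ x = 𝟙 X := by
  let z : End X := (x - 𝟙 X : X ⟶ X)
  have hz : IsNilpotent z := hnil z (by
    change R.H.map (x - 𝟙 X) = 0
    rw [Functor.map_sub, hx, CategoryTheory.Functor.map_id, sub_self])
  obtain ⟨u, hu⟩ := hz.isUnit_add_one
  have h1 : (u : End X) = (x : X ⟶ X) := by
    rw [hu]
    change (x - 𝟙 X) + 𝟙 X = x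
    abel
  refine ⟨((↑u⁻¹ : End X) : X ⟶ X), ?_, ?_⟩
  · rw [← h1, ← End.mul_def, Units.inv_mul]
    rfl
  · rw [← h1, ← End.mul_def, Units.mul_inv]
    rfl

lemma iso_of_real {X Y : C} (hX : ∀ x : End X, R.H.map (x : X ⟶ X) = 0 → IsNilpotent x)
    (hY : ∀ x : End Y, R.H.map (x : Y ⟶ Y) = 0 → IsNilpotent x) (f : X ⟶ Y) (g : Y ⟶ X)
    (h1 : R.H.map (f ≫ g) = 𝟙 _) (h2 : R.H.map (g ≫ f) = 𝟙 _) : Nonempty (X ≅ Y) := by
  obtain ⟨y, h3, -⟩ := inv_of_nil R hX _ h1
  obtain ⟨z, -, h4⟩ := inv_of_nil R hY _ h2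
  have h5 : f ≫ (g ≫ y) = 𝟙 X := by rw [← Category.assoc, h3]
  have h6 : (z ≫ g) ≫ f = 𝟙 Y := by rw [Category.assoc, h4]
  have h7 : g ≫ y = z ≫ g := by
    calc g ≫ y = ((z ≫ g) ≫ f) ≫ (g ≫ y) := by rw [h6, Category.id_comp]
      _ = (z ≫ g) ≫ (f ≫ (g ≫ y)) := by simp only [Category.assoc]
      _ = z ≫ g := by rw [h5, Category.comp_id]
  exact ⟨⟨f, g ≫ y, h5, by rw [h7, h6]⟩⟩

/-- The Kimura-finite part is unique up to isomorphism. -/
theorem kimuraPart_unique (hU : UnitQ C) {M A A' : C} (h : KimuraPart R M A)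
    (h' : KimuraPart R M A') : Nonempty (A ≅ A') := by
  obtain ⟨hA, P, i, r, j, s, h1, h2, h3, h4⟩ := h
  obtain ⟨hA', P', i', r', j', s', h1', h2', h3', h4'⟩ := h'
  have e : R.H.map (r ≫ i) = 𝟙 _ := by
    have h5 : R.H.map (s ≫ j) = 0 := by
      rw [Functor.map_comp, h4.eq_of_tgt (R.H.map s) 0, zero_comp]
    rw [← add_zero (R.H.map (r ≫ i)), ← h5, ← Functor.map_add, h3, CategoryTheory.Functor.map_id]
  have e' : R.H.map (r' ≫ i') = 𝟙 _ := by
    have h5 : R.H.map (s' ≫ j') = 0 := by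
      rw [Functor.map_comp, h4'.eq_of_tgt (R.H.map s') 0, zero_comp]
    rw [← add_zero (R.H.map (r' ≫ i')), ← h5, ← Functor.map_add, h3',
      CategoryTheory.Functor.map_id]
  refine iso_of_real R (nil_of_kf R hU hA) (nil_of_kf R hU hA') (i ≫ r') (i' ≫ r) ?_ ?_
  · have h6 : (i ≫ r') ≫ (i' ≫ r) = i ≫ (r' ≫ i') ≫ r := by simp only [Category.assoc]
    rw [h6, Functor.map_comp, Functor.map_comp, e', Category.id_comp, ← Functor.map_comp, h1,
      CategoryTheory.Functor.map_id]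
  · have h6 : (i' ≫ r) ≫ (i ≫ r') = i' ≫ (r ≫ i) ≫ r' := by simp only [Category.assoc]
    rw [h6, Functor.map_comp, Functor.map_comp, e, Category.id_comp, ← Functor.map_comp, h1',
      CategoryTheory.Functor.map_id]

variable [IsIdempotentComplete C]

include R in
/-- A retract of a Kimura-finite object is Kimura-finite. -/
theorem kf_retract (hU : UnitQ C) {M X : C} (hM : IsKimuraFinite M) (a : X ⟶ M) (b : M ⟶ X)
    (hab : a ≫ b = 𝟙 X) : IsKimuraFinite X := by
  have hK := R_charZero R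
  have e1 : ((-1 : ℚ) * (-1)) = 1 := by norm_num
  have e2 : ((1 : ℚ) * 1) = 1 := by norm_num
  have hC : R.CPlus X := cplus_retract R a b hab (cplus_of_kf R hM)
  obtain ⟨A, B, i, r, j, s, h1, h2, h3, h4, h5⟩ := exists_split R hC
    (nil_of_retract R hU hM a b hab)
  refine ⟨A, B, i, r, j, s, h1, h2, h3, ?_, ?_⟩
  · obtain ⟨n, hn⟩ := kill_retract R hU hM (η := -1) (Or.inr rfl) (i ≫ a) (b ≫ r)
      (by rw [Category.assoc, reassoc_of% hab, h1]) (by rw [h4]; push_cast; rw [neg_neg])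
    exact ⟨n, (kills_iff e1 A n).mpr hn⟩
  · obtain ⟨n, hn⟩ := kill_retract R hU hM (η := 1) (Or.inl rfl) (j ≫ a) (b ≫ s)
      (by rw [Category.assoc, reassoc_of% hab, h2]) (by rw [h5]; push_cast; rfl)
    exact ⟨n, (kills_iff e2 B n).mpr hn⟩

/-- A dominated object is the direct sum of a Kimura-finite object and of a phantom. -/
theorem exists_part (hU : UnitQ C) {M : C} (h : Dominated R M) : ∃ A, KimuraPart R M A := by
  obtain ⟨N, α, β, hN, hαβ⟩ := h
  let x : End N := ((β ≫ α) ≫ (β ≫ α) - β ≫ α : N ⟶ N)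
  have hx : R.H.map (x : N ⟶ N) = 0 := by
    change R.H.map ((β ≫ α) ≫ (β ≫ α) - β ≫ α) = 0
    have h1 : (β ≫ α) ≫ (β ≫ α) = β ≫ (α ≫ β) ≫ α := by simp only [Category.assoc]
    rw [Functor.map_sub, h1, Functor.map_comp, Functor.map_comp, hαβ, Category.id_comp,
      ← Functor.map_comp, sub_self]
  obtain ⟨k, hk⟩ := nil_of_kf R hU hN x hx
  let u : End M := (α ≫ β : M ⟶ M)
  -- `u * u - u` is nilpotent
  have hu0 : (u * u - u : End M) = (α ≫ ((β ≫ α - 𝟙 N) ≫ β) : M ⟶ M) := by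
    change (α ≫ β) ≫ (α ≫ β) - α ≫ β = _
    simp only [Preadditive.sub_comp, Preadditive.comp_sub, Category.assoc, Category.id_comp]
  have hux : (((β ≫ α - 𝟙 N) ≫ β) ≫ α : N ⟶ N) = x := by
    change _ = (β ≫ α) ≫ (β ≫ α) - β ≫ α
    simp only [Preadditive.sub_comp, Preadditive.comp_sub, Category.assoc, Category.id_comp]
  have hnil : IsNilpotent (u * u - u) := by
    refine ⟨k + 1, ?_⟩
    rw [hu0]
    have h1 := comp_pow α ((β ≫ α - 𝟙 N) ≫ β) k
    refine h1.trans ?_
    have h2 : (show End N from ((β ≫ α - 𝟙 N) ≫ β) ≫ α) = x := hux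
    rw [h2, hk]
    change α ≫ (0 : N ⟶ N) ≫ (β ≫ α - 𝟙 N) ≫ β = 0
    rw [zero_comp, comp_zero]
  obtain ⟨p, c, hp, hpc⟩ := exists_lift hnil
  -- the idempotent factors through `N`
  let g : End M := 1 + (u - 1) * c
  have hpg : p = u * g := by
    have h1 : p = u + (u * u - u) * c := by rw [← hpc]; abel
    rw [h1]
    simp only [g]
    noncomm_ring
  obtain ⟨A, i, r, hir, hri⟩ := IsIdempotentComplete.idempotents_split M (p : M ⟶ M) hp
  have hq : ((1 - p : End M) : M ⟶ M) ≫ ((1 - p : End M) : M ⟶ M) = (1 - p : End M) := by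
    have h3 : (1 - p) * (1 - p) = 1 - p := by
      rw [mul_sub, sub_mul, sub_mul, one_mul, one_mul, mul_one, hp, sub_self, sub_zero]
    exact h3
  obtain ⟨P, j, s, hjs, hsj⟩ := IsIdempotentComplete.idempotents_split M _ hq
  have hpr : R.H.map (p : M ⟶ M) = 𝟙 _ := by
    have h3 : (p : M ⟶ M) = α ≫ β + (c : M ⟶ M) ≫ ((α ≫ β) ≫ (α ≫ β) - α ≫ β) := by
      have h4 : p = u + (u * u - u) * c := by rw [← hpc]; abel
      exact h4
    rw [h3, Functor.map_add, Functor.map_comp R.H (c : M ⟶ M), Functor.map_sub,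
      Functor.map_comp R.H (α ≫ β), hαβ, Category.id_comp, sub_self, comp_zero, add_zero]
  have hA : IsKimuraFinite A := by
    refine kf_retract R hU hN (i ≫ (g : M ⟶ M) ≫ α) (β ≫ r) ?_
    have h5 : (p : M ⟶ M) = (g : M ⟶ M) ≫ (α ≫ β) := hpg
    have h6 : (i ≫ (g : M ⟶ M) ≫ α) ≫ (β ≫ r) = i ≫ (p : M ⟶ M) ≫ r := by
      rw [h5]
      simp only [Category.assoc]
    rw [h6, ← hri]
    simp [reassoc_of% hir, hir]
  have hP : IsZero (R.H.obj P) := by
    rw [IsZero.iff_id_eq_zero, ← CategoryTheory.Functor.map_id, ← hjs]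
    let q' : M ⟶ M := (1 - p : End M)
    have hq' : s ≫ j = q' := hsj
    have h7 : R.H.map q' = 0 := by
      let p' : M ⟶ M := p
      have hpr' : R.H.map p' = 𝟙 _ := hpr
      change R.H.map (𝟙 M - p') = 0
      rw [Functor.map_sub, CategoryTheory.Functor.map_id, hpr', sub_self]
    have h8 : j ≫ s = j ≫ q' ≫ s := by
      rw [← hq']
      simp [reassoc_of% hjs, hjs]
    rw [h8, Functor.map_comp, Functor.map_comp, h7, zero_comp, comp_zero]
  refine ⟨A, hA, P, i, r, j, s, hir, hjs, ?_, hP⟩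
  rw [hri, hsj]
  change p + (1 - p) = 1
  abel

theorem dominated_of_part {M A : C} (h : KimuraPart R M A) : Dominated R M := by
  obtain ⟨hA, P, i, r, j, s, h1, h2, h3, h4⟩ := h
  refine ⟨A, r, i, hA, ?_⟩
  have h5 : R.H.map (s ≫ j) = 0 := by
    rw [Functor.map_comp, h4.eq_of_tgt (R.H.map s) 0, zero_comp]
  rw [← add_zero (R.H.map (r ≫ i)), ← h5, ← Functor.map_add, h3, CategoryTheory.Functor.map_id]

/-- For dominated objects Kimura-finiteness is the absence of phantom summands. -/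
theorem kf_iff_no_phantom (hU : UnitQ C) {M : C} (h : Dominated R M) :
    IsKimuraFinite M ↔ ∀ q : M ⟶ M, q ≫ q = q → R.H.map q = 0 → q = 0 := by
  constructor
  · intro hM q hq hq0
    let e : End M := q
    obtain ⟨k, hk⟩ := nil_of_kf R hU hM e hq0
    have h1 : e * e = e := hq
    have h2 : ∀ l : ℕ, e ^ (l + 1) = e := by
      intro l
      induction l with
      | zero => rw [zero_add, pow_one]
      | succ l ih => rw [pow_succ, ih, h1]
    have h3 : e ^ (k + 1) = 0 := by rw [pow_succ, hk, zero_mul]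
    rw [h2] at h3
    exact h3
  · intro hq
    obtain ⟨A, hA, P, i, r, j, s, h1, h2, h3, h4⟩ := exists_part R hU h
    have h5 : s ≫ j = 0 := by
      apply hq
      · rw [Category.assoc, reassoc_of% h2]
      · rw [Functor.map_comp, h4.eq_of_tgt (R.H.map s) 0, zero_comp]
    rw [h5, add_zero] at h3
    exact hA.of_iso ⟨i, r, h1, h3⟩

end

end Pool.Agent.X264.KF
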